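import Pool.Agent.TH658.Sd.Coin

set_option autoImplicit false

/-!
# Basis-free programs need exponential size to decide symbolic singularity

Inputs are tuples `A = (A_v)` of `m` integral `n × n` matrices. The group of sign changes of rows,
columns and variables (a small finite subgroup of `GL_n × GL_n × GL_m`) acts on them.

A program is a sequence of gates. The value of a gate is an arbitrary function of the isomorphism
class of a vector space of dimension `r` (over some field of characteristic not two, which may
depend on the gate) with endomorphisms and sesquilinear forms, on which the sign changes in a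
subgroup `H` act by a linear representation (`ClassGate`), or an arbitrary function of the traces
of the products of `r × r` matrices on which each sign change in `H` acts by some conjugation
(`TraceGate`). The entries of the matrices are linear combinations of arbitrary functions of few
slices of the tuple and of arbitrary functions of the value of one previous gate.

If the value of a gate distinguishes the nonsingular symbolic matrices `∑ x_v A_v` from the
singular ones (even among the matrices with entries `0, 1, -1`, two nonzero entries in each row and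
column, and two for each variable), then the program has size at least `2^(n/8)`. Approximating the
rank up to a factor `1 - 1/N` needs size `2^(N/8)`. If the gates may use a random number for each
variable (which changes its sign with the variable), one gate of dimension `2 n` is enough.
-/

namespace Pool.Agent.Results.MP_64d474_lc.EquivariantPrograms

open Pool.Agent.TH658.Sd

/-- Deciding singularity. -/
def SingularityBound : Prop :=
  ∀ (n m d s : ℕ) (V : Type) (v : Fin s → Tup n m → V) (H : Fin s → AddSubgroup (Flips n m))
    (r p : Fin s → ℕ), n ≤ m → 16 * d ≤ n → IsProgram d v H r p → ∀ j₀ : Fin s,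
    (∀ A B : Tup n m, Sparse 1 A → Sparse 1 B → (symb A).det ≠ 0 → (symb B).det = 0 →
      v j₀ A ≠ v j₀ B) →
    2 ^ (n / 8) ≤ ∑ j, r j ^ p j * (H j).index

/-- Approximating the rank. -/
def ApproximationBound : Prop :=
  ∀ (n m N k d s : ℕ) (V : Type) (v : Fin s → Tup n m → V)
    (H : Fin s → AddSubgroup (Flips n m)) (r p : Fin s → ℕ),
    k * N ≤ n → N ≤ m → 16 * d ≤ N → IsProgram d v H r p → ∀ j₀ : Fin s,
    (∀ A B : Tup n m, Sparse k A → Sparse k B → k * N ≤ symRank A → symRank B ≤ k * (N - 1) →
      v j₀ A ≠ v j₀ B) →
    2 ^ (N / 8) ≤ ∑ j, r j ^ p j * (H j).index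

theorem cost_pos {n m s d : ℕ} {V : Type} {v : Fin s → Tup n m → V}
    {H : Fin s → AddSubgroup (Flips n m)} {r p : Fin s → ℕ} (h : IsProgram d v H r p)
    (j₀ : Fin s) : 1 ≤ ∑ j, r j ^ p j * (H j).index := by
  have h1 : r j₀ ^ p j₀ * (H j₀).index ≤ ∑ j, r j ^ p j * (H j).index :=
    Finset.single_le_sum (f := fun j => r j ^ p j * (H j).index) (fun _ _ => Nat.zero_le _)
      (Finset.mem_univ j₀)
  refine le_trans ?_ h1
  have h2 : 0 < r j₀ ^ p j₀ := Nat.pow_pos (h j₀).1
  have h3 : 0 < (H j₀).index := Nat.pos_of_ne_zero AddSubgroup.index_ne_zero_of_finite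
  exact Nat.mul_pos h2 h3

theorem approximation : ApproximationBound := by
  intro n m N k d s V v H r p hk hm hd hp j₀ hsep
  rcases Nat.lt_or_ge N 2 with hN | hN
  · have h1 : N / 8 = 0 := by omega
    rw [h1, pow_zero]
    exact cost_pos hp j₀
  · exact program_bound hk hm hd hN v H r p hp j₀ hsep

theorem det_of_rank {n m : ℕ} (A : Tup n m) (h : n ≤ symRank A) : (symb A).det ≠ 0 := by
  intro h0
  have h1 : ((symb A).map (algebraMap _ (RF m))).det = 0 := by
    have h2 := RingHom.map_det (algebraMap (MvPolynomial (Fin m) ℚ) (RF m)) (symb A)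
    rw [h0, map_zero] at h2
    exact h2.symm
  obtain ⟨x, hx, hx0⟩ := Matrix.exists_mulVec_eq_zero_iff.mpr h1
  have h3 := LinearMap.finrank_range_add_finrank_ker
    ((symb A).map (algebraMap _ (RF m))).mulVecLin
  rw [Module.finrank_fintype_fun_eq_card, Fintype.card_fin] at h3
  have h4 : symRank A = Module.finrank (RF m)
    (LinearMap.range ((symb A).map (algebraMap _ (RF m))).mulVecLin) := rfl
  rw [h4] at h
  have h5 : Module.finrank (RF m)
      (LinearMap.ker ((symb A).map (algebraMap _ (RF m))).mulVecLin) = 0 := by omega
  rw [Submodule.finrank_eq_zero] at h5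
  have h6 : x ∈ LinearMap.ker ((symb A).map (algebraMap _ (RF m))).mulVecLin := by
    rw [LinearMap.mem_ker, Matrix.mulVecLin_apply]
    exact hx0
  rw [h5, Submodule.mem_bot] at h6
  exact hx h6

theorem det_of_rank_le {n m : ℕ} (A : Tup n m) (hn : 0 < n) (h : symRank A ≤ n - 1) :
    (symb A).det = 0 := by
  by_contra h0
  have h1 : IsUnit ((symb A).map (algebraMap _ (RF m))) := by
    rw [Matrix.isUnit_iff_isUnit_det, isUnit_iff_ne_zero]
    have h2 := RingHom.map_det (algebraMap (MvPolynomial (Fin m) ℚ) (RF m)) (symb A)
    intro h3
    have h4 : algebraMap (MvPolynomial (Fin m) ℚ) (RF m) (symb A).det = 0 := h2.trans h3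
    rw [FaithfulSMul.algebraMap_eq_zero_iff] at h4
    exact h0 h4
  have h5 := Matrix.rank_of_isUnit _ h1
  rw [Fintype.card_fin] at h5
  have h6 : symRank A = n := h5
  omega

theorem singularity : SingularityBound := by
  intro n m d s V v H r p hm hd hp j₀ hsep
  rcases Nat.eq_zero_or_pos n with rfl | hn
  · rw [Nat.zero_div, pow_zero]
    exact cost_pos hp j₀
  · refine approximation n m n 1 d s V v H r p (by omega) hm hd hp j₀ ?_
    intro A B hA hB h1 h2
    rw [one_mul] at h1 h2
    exact hsep A B hA hB (det_of_rank A h1) (det_of_rank_le B hn h2)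

/-- With a random number for each variable one gate is enough: it never errs on singular matrices,
and for nonsingular ones it errs with probability at most `n / (2 L)` for random numbers in
`{-L, …, L} \ {0}`. -/
def RandomGate : Prop :=
  ∀ n m : ℕ, ∃ v : Tup n m × (Fin m → ℤ) → Prop,
    ClassGate coinFlip ℚ ⊤ (n + n) (LocalCoin ℚ n m 1) v ∧
    ∀ A : Tup n m, ((symb A).det = 0 → ∀ c, ¬ v (A, c)) ∧
      ((symb A).det ≠ 0 → ∀ L : ℕ, 0 < L →
        Nat.card {c : Fin m → ℤ // (∀ u, c u ≠ 0 ∧ |c u| ≤ L) ∧ ¬ v (A, c)} * (2 * L) ≤
          n * (2 * L) ^ m)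

theorem random : RandomGate := by
  classical
  intro n m
  refine ⟨coinV, coin_gate n m, fun A => ⟨fun h c hc => ?_, fun h L hL => ?_⟩⟩
  · rw [coinV_iff, valM_det, h, map_zero] at hc
    exact hc rfl
  · have h1 := coin_error A h L hL
    rw [Nat.subtype_card ((Fintype.piFinset fun _ : Fin m => pm L).filter fun c =>
      (valM (A, c)).det = 0)]
    · exact h1
    · intro c
      rw [Finset.mem_filter, Fintype.mem_piFinset, coinV_iff, not_not]
      refine and_congr (forall_congr' fun u => ?_) Iff.rfl
      unfold pm
      rw [Finset.mem_erase, Finset.mem_Icc, abs_le]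

/-- The two lower bounds for programs, and the gate with random numbers. -/
theorem result : SingularityBound ∧ ApproximationBound ∧ RandomGate :=
  ⟨singularity, approximation, random⟩

end Pool.Agent.Results.MP_64d474_lc.EquivariantPrograms
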