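import Mathlib
import Pool.Agent.TH45.Gr.Outer

/-!
# Symbolic determinants of homogeneous components of graded matrix Lie algebras

Let `m ≥ 2` and let `𝓑` be a space of `n × n` matrices over a field of characteristic zero which is
closed under `(m+1)`-fold commutators: `[b_0, [b_1, [… , b_m]]] ∈ 𝓑`.  Examples: every homogeneous
component of a `ℤ/m`-graded matrix Lie algebra, for instance the eigenspaces of an automorphism of
order `m` of a matrix Lie algebra; for `m = 2` these are the Lie triple systems, and Lie algebras
are closed for every `m`.  We prove the correctness of a deterministic polynomial-time procedure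
which decides whether the symbolic determinant of `𝓑` vanishes.

For `x ∈ 𝓑` let `V` be the generalised kernel of `x`, let `𝓑₀` be the space of all `y ∈ 𝓑` which are
annihilated by a power of `ad x`, and let `T ⊆ End V` be the space of the restrictions to `V` of the
elements of `𝓑₀`.
* If `y ∈ 𝓑₀` is not nilpotent on `V`, one of the points `x + k y`, `k ≤ n`, has a smaller generalised
  kernel.
* If all elements of `T` are nilpotent, the symbolic determinant vanishes if and only if `det x = 0`.
* Whether all elements of `T` are nilpotent is decided by a local search.  Let `A_r` (`r ∈ ℤ/m`) be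
  the span of the products of elements of `T` whose number of factors is congruent to `r`, let `N_r`
  be the space of the `ν ∈ A_r` with `tr(ν b) = 0` for all `b ∈ A_(-r)`, and let `F_i` be the span of
  the vectors `ν_1 ⋯ ν_i v`, `ν_j` in the union of the `N_r`.  The potential of `f ∈ T` is the sum of
  the dimensions of `f^k F_i + F_(i+1)` (`i < d`, `k ≤ d = dim V`); it is at most `d²(d+1)`.  If `T`
  contains an element which is not nilpotent and `f ∈ T` is nilpotent, then for one of the elements
  `Y_i` of any given spanning family of `T` and one of the numbers `t ≤ d²(d+1)²+1` the potential of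
  `f + t Y_i` is larger than the potential of `f`.
-/

set_option autoImplicit false

namespace Pool.Agent.Results.MP_64d474_lc.GradedLieComponents

open Matrix Module

/-- The symbolic matrix `∑ i, x_i B_i` with entries in `K[x_i : i ∈ σ]`. -/
noncomputable def symbolicMatrix {K n σ : Type*} [Field K] [Fintype σ]
    (B : σ → Matrix n n K) : Matrix n n (MvPolynomial σ K) :=
  ∑ i, (MvPolynomial.X i : MvPolynomial σ K) • (B i).map MvPolynomial.C

/-- the span of the coefficient matrices -/
def coeffSpace {K n σ : Type*} [Field K] (B : σ → Matrix n n K) : Submodule K (Matrix n n K) :=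
  Submodule.span K (Set.range B)

/-- `commutators S k` is the span of the `(k+1)`-fold commutators `[s_0, [s_1, [… , s_k]]]` of
elements of the subspace `S` of an algebra. -/
def commutators {K A : Type*} [Field K] [Ring A] [Algebra K A] (S : Submodule K A) :
    ℕ → Submodule K A
  | 0 => S
  | k + 1 => Submodule.span K {x | ∃ a ∈ S, ∃ b ∈ commutators S k, x = a * b - b * a}

/-- the map `y ↦ x y - y x` -/
def adMap {K n : Type*} [Field K] [Fintype n] [DecidableEq n] (x : Matrix n n K) :
    Module.End K (Matrix n n K) :=
  LinearMap.mulLeft K x - LinearMap.mulRight K x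

/-- the elements of the space which are annihilated by a power of `ad x` (equivalently, by the
power with exponent `n ^ 2`) -/
def localPart {K n σ : Type*} [Field K] [Fintype n] [DecidableEq n] (B : σ → Matrix n n K)
    (x : Matrix n n K) : Submodule K (Matrix n n K) :=
  coeffSpace B ⊓ LinearMap.ker (adMap x ^ (Fintype.card n * Fintype.card n))

/-- the generalised kernel of `x`: the kernel of `x ^ n` -/
def nilKernel {K n : Type*} [Field K] [Fintype n] [DecidableEq n] (x : Matrix n n K) :
    Submodule K (n → K) :=
  LinearMap.ker ((x ^ Fintype.card n).mulVecLin)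

/-- the space of the endomorphisms of the generalised kernel of `x` which are restrictions of
elements of the local part at `x` -/
def kernelPart {K n σ : Type*} [Field K] [Fintype n] [DecidableEq n] (B : σ → Matrix n n K)
    (x : Matrix n n K) : Submodule K (Module.End K (nilKernel x)) :=
  Submodule.span K {f | ∃ y ∈ localPart B x, ∀ v, (f v : n → K) = y *ᵥ v}

/-- `products T m r`: the span of the products of elements of `T` whose number of factors is
congruent to `r` modulo `m` -/
def products {K V : Type*} [Field K] [AddCommGroup V] [Module K V]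
    (T : Submodule K (Module.End K V)) (m : ℕ) (r : ZMod m) : Submodule K (Module.End K V) :=
  Submodule.span K {a | ∃ l : List (Module.End K V),
    (∀ b ∈ l, b ∈ T) ∧ (l.length : ZMod m) = r ∧ a = l.prod}

/-- `ν` is an element of `products T m r` with `tr (ν b) = 0` for all `b` in
`products T m (-r)` -/
def IsRadical {K V : Type*} [Field K] [AddCommGroup V] [Module K V]
    (T : Submodule K (Module.End K V)) (m : ℕ) (r : ZMod m) (ν : Module.End K V) : Prop :=
  ν ∈ products T m r ∧ ∀ b ∈ products T m (-r), LinearMap.trace K V (ν * b) = 0

/-- the flag: `flag T m 0` is the whole space and `flag T m (i + 1)` is the span of the vectors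
`ν v` with `IsRadical T m r ν` for some `r` and `v ∈ flag T m i` -/
def flag {K V : Type*} [Field K] [AddCommGroup V] [Module K V]
    (T : Submodule K (Module.End K V)) (m : ℕ) : ℕ → Submodule K V
  | 0 => ⊤
  | i + 1 => Submodule.span K
      {w | ∃ (r : ZMod m) (ν : Module.End K V), IsRadical T m r ν ∧ ∃ v ∈ flag T m i, w = ν v}

/-- the potential of `f`: the sum of the dimensions of `f ^ k (flag i) + flag (i + 1)` over all
`i < d` and `k ≤ d`, where `d` is the dimension of the space -/
noncomputable def potential {K V : Type*} [Field K] [AddCommGroup V] [Module K V]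
    (T : Submodule K (Module.End K V)) (m : ℕ) (f : Module.End K V) : ℕ :=
  ∑ i ∈ Finset.range (finrank K V), ∑ k ∈ Finset.range (finrank K V + 1),
    finrank K ((flag T m i).map (f ^ k) ⊔ flag T m (i + 1) : Submodule K V)

/-- the largest possible step length of the local search on a space of dimension `d` -/
def stepBound (d : ℕ) : ℕ := d ^ 2 * (d + 1) ^ 2 + 1

/-- The local search works on `T`: all potentials are at most `d ^ 2 * (d + 1)`, and for every
family `Y` spanning `T` and every nilpotent `f ∈ T`: either all elements of `T` are nilpotent, or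
one of the elements `f + t Y_i`, `t ≤ d ^ 2 * (d + 1) ^ 2 + 1`, has a larger potential than `f`. -/
def LocalSearch {K V : Type*} [Field K] [AddCommGroup V] [Module K V]
    (T : Submodule K (Module.End K V)) (m : ℕ) : Prop :=
  (∀ f, potential T m f ≤ finrank K V ^ 2 * (finrank K V + 1)) ∧
  ∀ (ι : Type) (Y : ι → Module.End K V), Submodule.span K (Set.range Y) = T →
    ∀ f ∈ T, IsNilpotent f → (∀ g ∈ T, IsNilpotent g) ∨
      ∃ (i : ι) (t : ℕ), t ≤ stepBound (finrank K V) ∧
        potential T m f < potential T m (f + (t : K) • Y i)

/-- all elements of a space of endomorphisms are nilpotent -/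
def AllNilpotent {K V : Type*} [Field K] [AddCommGroup V] [Module K V]
    (T : Submodule K (Module.End K V)) : Prop := ∀ f ∈ T, IsNilpotent f

/-- the dimension of the generalised kernel -/
noncomputable def kernelDim {K n : Type*} [Field K] [Fintype n] [DecidableEq n]
    (x : Matrix n n K) : ℕ := finrank K (nilKernel x)

/-- `y ^ n` annihilates the generalised kernel of `x` -/
def NilOn {K n : Type*} [Field K] [Fintype n] [DecidableEq n] (x y : Matrix n n K) : Prop :=
  ∀ v ∈ nilKernel x, (y ^ Fintype.card n) *ᵥ v = 0

section proofs

theorem commutators_eq {K A : Type*} [Field K] [Ring A] [Algebra K A] (S : Submodule K A)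
    (k : ℕ) : commutators S k = TH45.Gr.br S k := by
  induction k with
  | zero => rfl
  | succ k ih =>
    unfold commutators TH45.Gr.br
    rw [ih]

theorem flag_eq {K V : Type*} [Field K] [AddCommGroup V] [Module K V]
    (T : Submodule K (Module.End K V)) (m i : ℕ) : flag T m i = TH45.Gr.Fl T m i := by
  induction i with
  | zero => rfl
  | succ i ih =>
    unfold flag TH45.Gr.Fl
    rw [ih]
    rfl

theorem kernelPart_eq {K n σ : Type*} [Field K] [Fintype n] [DecidableEq n] (B : σ → Matrix n n K)
    (x : Matrix n n K) : kernelPart B x =
      TH45.Gr.restr (localPart B x) (nilKernel x) :=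
  Submodule.span_eq (TH45.Gr.restr (localPart B x) (nilKernel x))

theorem potential_eq {K V : Type*} [Field K] [AddCommGroup V] [Module K V]
    (T : Submodule K (Module.End K V)) (m : ℕ) (f : Module.End K V) :
    potential T m f = TH45.Gr.pot (TH45.Gr.Fl T m) f := by
  have h : flag T m = TH45.Gr.Fl T m := funext fun i => flag_eq T m i
  unfold potential TH45.Gr.pot
  rw [h]

/-- Homogeneous components of graded families are closed: if `[L g, L h] ⊆ L (g + h)` for all
`g, h` in a commutative monoid and `m • g = 0`, then `L g` is closed under `(m+1)`-fold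
commutators. -/
theorem homogeneous_closed {K A G : Type*} [Field K] [Ring A] [Algebra K A] [AddCommMonoid G]
    (L : G → Submodule K A) (hL : ∀ g h, ∀ a ∈ L g, ∀ b ∈ L h, a * b - b * a ∈ L (g + h))
    {m : ℕ} {g : G} (hg : m • g = 0) : commutators (L g) m ≤ L g := by
  have h : ∀ k : ℕ, commutators (L g) k ≤ L ((k + 1) • g) := by
    intro k
    induction k with
    | zero => rw [zero_add, one_nsmul]; exact le_rfl
    | succ k ih =>
      show Submodule.span K _ ≤ _
      rw [Submodule.span_le]
      rintro _ ⟨a, ha, b, hb, rfl⟩
      have := hL _ _ a ha b (ih hb)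
      rwa [succ_nsmul' g (k + 1)]
  have h2 := h m
  rwa [succ_nsmul, hg, zero_add] at h2

variable {K n σ : Type*} [Field K] [Fintype n] [DecidableEq n]

theorem det_eq_zero_of_nilKernel {x : Matrix n n K} (h : nilKernel x ≠ ⊥) : x.det = 0 := by
  obtain ⟨v, hv, hv0⟩ := Submodule.exists_mem_ne_zero_of_ne_bot h
  have h2 : (x ^ Fintype.card n).det = 0 := by
    rw [← Matrix.exists_mulVec_eq_zero_iff]
    exact ⟨v, hv0, hv⟩
  rw [Matrix.det_pow] at h2
  exact eq_zero_of_pow_eq_zero h2

theorem nilKernel_ne_bot {x : Matrix n n K} (h : x.det = 0) : nilKernel x ≠ ⊥ := by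
  obtain ⟨v, hv0, hv⟩ := Matrix.exists_mulVec_eq_zero_iff.2 h
  intro hbot
  apply hv0
  have : v ∈ nilKernel x := H800R3.LTS.ker_pow_stable x (k := 1) (by rw [pow_one]; exact hv)
  rw [hbot] at this
  exact this

theorem stop [CharZero K] [Fintype σ] {m : ℕ} (hm : 2 ≤ m) {B : σ → Matrix n n K}
    (hB : commutators (coeffSpace B) m ≤ coeffSpace B)
    {x : Matrix n n K} (hx : x ∈ coeffSpace B) (hnil : ∀ f ∈ kernelPart B x, IsNilpotent f) :
    (symbolicMatrix B).det = 0 ↔ x.det = 0 := by
  rw [commutators_eq] at hB
  constructor
  · intro h
    by_contra hdet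
    exact (H800R3.Slice.symbolic_ne_zero_iff B).2 ⟨x, hx, hdet⟩ h
  · intro h
    by_contra hne
    obtain ⟨b, hb, hdet⟩ := (H800R3.Slice.symbolic_ne_zero_iff B).1 hne
    refine hdet (TH45.Gr.stop_br (B := coeffSpace B) (by omega) hB hx (nilKernel_ne_bot h)
      (fun y hy => ?_) b hb)
    obtain ⟨f, hf, hfy⟩ := TH45.Gr.exists_restr hy
    exact (TH45.Gr.restr_nilpotent hfy).1 (hnil f (by rw [kernelPart_eq]; exact hf))

end proofs

/-- **Symbolic determinants of homogeneous components of graded matrix Lie algebras.** Let `m ≥ 2`
and let the `n × n` matrices `B i` over a field of characteristic zero span a space which is closed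
under `(m+1)`-fold commutators.
(1) Let `x` be a point of the span, and let `T` be the space of the restrictions of the elements of
the local part at `x` to the generalised kernel of `x`, whose dimension is `d`.
(a) The local search decides whether all elements of `T` are nilpotent: all potentials are at most
`d ^ 2 * (d + 1)`, and for every family `Y` spanning `T` and every nilpotent `f ∈ T`: either all
elements of `T` are nilpotent, or one of the elements `f + t Y_i` with `t ≤ d ^ 2 * (d + 1) ^ 2 + 1`
has a larger potential than `f`.
(b) If all elements of `T` are nilpotent, the symbolic determinant vanishes if and only if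
`det x = 0`.
(c) If an element `y` of the local part is not nilpotent on the generalised kernel of `x`, one of
the points `x + k y`, `0 ≤ k ≤ n`, has a generalised kernel of smaller dimension.
(2) Each coefficient of a point of the span can be replaced by one of the numbers `0, …, n` such
that the dimension of the generalised kernel does not grow.
(3) The symbolic determinant vanishes if and only if there is a singular point `x` of the span such
that all elements of the local part at `x` are nilpotent on the generalised kernel of `x`. -/
theorem result {K n σ : Type*} [Field K] [CharZero K] [Fintype n] [DecidableEq n] [Fintype σ]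
    [DecidableEq σ] (m : ℕ) (hm : 2 ≤ m) (B : σ → Matrix n n K)
    (hB : commutators (coeffSpace B) m ≤ coeffSpace B) :
    (∀ x ∈ coeffSpace B,
      LocalSearch (kernelPart B x) m ∧
      (AllNilpotent (kernelPart B x) → ((symbolicMatrix B).det = 0 ↔ x.det = 0)) ∧
      (∀ y ∈ localPart B x, ¬ NilOn x y → ∃ k : ℕ, k ≤ Fintype.card n ∧
        x + (k : K) • y ∈ coeffSpace B ∧ kernelDim (x + (k : K) • y) < kernelDim x)) ∧
    (∀ (c : σ → K) (i : σ), ∃ k : ℕ, k ≤ Fintype.card n ∧
      kernelDim (∑ j, Function.update c i (k : K) j • B j) ≤ kernelDim (∑ j, c j • B j)) ∧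
    ((symbolicMatrix B).det = 0 ↔
      ∃ x ∈ coeffSpace B, x.det = 0 ∧ AllNilpotent (kernelPart B x)) := by
  have haug : ∀ x ∈ coeffSpace B, ∀ y ∈ localPart B x, ¬ NilOn x y → ∃ k : ℕ,
      k ≤ Fintype.card n ∧ x + (k : K) • y ∈ coeffSpace B ∧
        kernelDim (x + (k : K) • y) < kernelDim x := by
    intro x hx y hy hne
    unfold NilOn at hne
    push Not at hne
    obtain ⟨v, hv, hv0⟩ := hne
    obtain ⟨k, hk, hlt⟩ := H800R3.LTS.augment (x := x) (y := y) hy.2 hv hv0
    exact ⟨k, hk, (coeffSpace B).add_mem hx ((coeffSpace B).smul_mem _ hy.1), hlt⟩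
  refine ⟨fun x hx => ⟨⟨fun f => ?_, fun ι Y hY f hf hfn => ?_⟩, stop hm hB hx, haug x hx⟩,
    fun c i => H800R3.LTS.round B c i, ?_⟩
  · rw [potential_eq]
    refine (TH45.Gr.pot_le _ f).trans (le_of_eq ?_)
    ring
  · have hB' := hB
    rw [commutators_eq] at hB'
    have hcl : TH45.Gr.br (A := Module.End K (nilKernel x)) (kernelPart B x) m ≤
        kernelPart B x := by
      rw [kernelPart_eq]
      exact TH45.Gr.br_restr (V := nilKernel x) (TH45.Gr.br_localPart (B := coeffSpace B) hB' x)
    rcases TH45.Gr.search hm hcl hY hf hfn with h | ⟨i, t, ht, hlt⟩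
    · exact Or.inl h
    · refine Or.inr ⟨i, t, ?_, ?_⟩
      · refine ht.trans (le_of_eq ?_)
        unfold TH45.Gr.bound stepBound
        ring
      · rw [potential_eq, potential_eq]
        exact hlt
  · constructor
    · intro h0
      obtain ⟨x, hx, hmin⟩ : ∃ x ∈ coeffSpace B, ∀ z ∈ coeffSpace B,
          kernelDim x ≤ kernelDim z := by
        obtain ⟨x, hx, hmin⟩ := (measure fun z : Matrix n n K =>
          kernelDim z).wf.has_min (coeffSpace B : Set (Matrix n n K))
          ⟨0, (coeffSpace B).zero_mem⟩
        exact ⟨x, hx, fun z hz => not_lt.1 (hmin z hz)⟩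
      have hnil : AllNilpotent (kernelPart B x) := by
        intro f hf
        rw [kernelPart_eq] at hf
        obtain ⟨y, hy, hfy⟩ := hf
        refine (TH45.Gr.restr_nilpotent hfy).2 ?_
        by_contra hne
        obtain ⟨k, _, hmem, hlt⟩ := haug x hx y hy hne
        exact absurd (hmin _ hmem) (not_le.2 hlt)
      exact ⟨x, hx, (stop hm hB hx hnil).1 h0, hnil⟩
    · rintro ⟨x, hx, hdet, hnil⟩
      exact (stop hm hB hx hnil).2 hdet

end Pool.Agent.Results.MP_64d474_lc.GradedLieComponents
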