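import Mathlib
import Pool.Agent.TH189.Kr14
import Pool.Agent.TH189.Lev8

/-!
# Symbolic determinants which divide determinants over Lie algebras with bounded simple factors

Let `𝔤` be an (unknown) Lie algebra of complex `M × M` matrices, and suppose that the simple ideals
of `𝔤 / rad 𝔤` have dimension at most `m`; there is no restriction on their number.  Let `Y` be an
(unknown) `M × M` matrix of polynomials of degree at most `w` in `x_1, …, x_n` all of whose values
lie in `𝔤`.  We give explicit integer points, of number polynomial in `n` and `N` for fixed `m` and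
`w` and quasi-polynomial if `m` and `w` are at most polylogarithmic in `N`, such that every symbolic `N × N` matrix `A = ∑ x_k A_k` with `det Y = h (det A) ^ k`, where
`k ≥ 1` and `h ≠ 0`, is nonsingular if and only if it is nonsingular at one of these points.

Examples: `Y = P A Q` with invertible constant matrices `P`, `Q` (here `w = 1`; the space of the
matrices `A` is equivalent to a subspace of `𝔤`; the case `m = 0` is the case of simultaneously
triangularisable matrices; for `m ≥ 3` the symbolic matrices can be irreducible of unbounded size,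
for instance the sums `∑_i 1 ⊗ ⋯ ⊗ M_i ⊗ ⋯ ⊗ 1` of `2 × 2` matrices `M_i` of linear forms);
`Y = A ^ w` (for `w = 2` the matrices in the odd part of a Lie superalgebra of matrices with even
part `𝔤` are of this form); more generally `Y = G A H` with matrices of polynomials `G` and `H`
of nonzero determinant.

The proof.  Let `Ω` be an algebraic closure of `ℂ(x_1, …, x_n)`.

(1) Let `F` be the finite set of the characteristic polynomials of the adjoint action of `Y` on
the simple ideals of `𝔤 / rad 𝔤`, and of the polynomials `T - λ`, where `λ` runs through the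
normalised traces of `Y` on the composition factors of `ℂ ^ M`.  All eigenvalues of `Y` are
combinations with rational coefficients of the roots of the members of `F` in `Ω`; so `det Y` is a
product of combinations of algebraic functions of degree at most `m' = max m 1`, integral and of
weight `w` over `ℂ[x]`.

(2) At a point `x⁰` of the generator with `w m' ^ 2` seeds the roots `θ_i` of the members of `F`
stay distinct, and they become power series in `t` along the lines `x⁰ + t v`; the Galois group `Γ`
permutes these series.  Substitute for `v` the generator with `s = 2 w m' ^ 4` seeds, which does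
not kill polynomials of degree at most `s`, and let `Γ'` be the Galois group of the new series.
Invariants of small degree show that `Γ` and `Γ'` have the same orbits of pairs of roots.  Let `R`
and `R'` be the spaces of the vectors `c` with `∑ c_i θ_i = 0` before and after the substitution;
the averaged projection onto the `Γ'`-stable space `R'` is a matrix which is constant on the orbits
of pairs, so `R'` is `Γ`-stable.  Suppose that `R' ≠ R`.  Then a `Γ`-stable complement of `R` in
`R'` contains a vector `v ≠ 0` which is fixed by the stabiliser of a root.  The element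
`∑ v_i θ_i` has at most `m'` conjugates, their product is a polynomial of degree at most `w m'`
which vanishes after the substitution, so it is zero and `v` is in `R`, a contradiction.

(3) The polynomials which are killed by the generator with `w m' ^ 2 + s` seeds form an ideal; it
does not contain `det Y`, so it does not contain the divisor `det A` of `det Y`.
-/

set_option autoImplicit false

namespace Pool.Agent.Results.MP_64d474_lc.LieValued

open MvPolynomial

attribute [local instance 100] LieRing.ofAssociativeRing

/-- The symbolic matrix `∑ x_k A_k`. -/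
noncomputable def symbolic {N n : ℕ} (A : Fin n → Matrix (Fin N) (Fin N) ℂ) :
    Matrix (Fin N) (Fin N) (MvPolynomial (Fin n) ℂ) :=
  ∑ k, (X k : MvPolynomial (Fin n) ℂ) • (A k).map C

/-- The matrix `∑ c_k A_k`. -/
noncomputable def value {N n : ℕ} (A : Fin n → Matrix (Fin N) (Fin N) ℂ) (c : Fin n → ℂ) :
    Matrix (Fin N) (Fin N) ℂ :=
  ∑ k, c k • A k

/-- Every minimal nonzero ideal of `𝔤 / rad 𝔤` has dimension at most `m`.  (The Lie algebra
`𝔤 / rad 𝔤` is semisimple; its minimal nonzero ideals are its simple ideals.) -/
def SimpleIdealsLE {M : ℕ} (𝔤 : LieSubalgebra ℂ (Matrix (Fin M) (Fin M) ℂ)) (m : ℕ) : Prop :=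
  ∀ I : LieIdeal ℂ (𝔤 ⧸ LieAlgebra.radical ℂ 𝔤), IsAtom I → Module.finrank ℂ I ≤ m

/-- The number of seeds: `w (m' ^ 2 + 2 m' ^ 4)` for `m' = max m 1`. -/
def seeds (m w : ℕ) : ℕ := w * ((max m 1) ^ 2 + 2 * (max m 1) ^ 4)

/-- The integer point with coordinates `∑ l, y_l ∏_{k ≠ i} (z_l - k)`, `i = 0, …, n - 1`. -/
def point (n t : ℕ) (y z : Fin t → ℕ) : Fin n → ℤ :=
  fun i => ∑ l : Fin t, (y l : ℤ) * ∏ k ∈ Finset.univ.erase i, ((z l : ℤ) - (k.val : ℤ))

/-- The points with `t` seeds `(y_l, z_l)`, where `0 ≤ y_l ≤ D` and `0 ≤ z_l ≤ n D`. -/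
def points (n t D : ℕ) : Finset (Fin n → ℤ) :=
  ((Fintype.piFinset fun _ : Fin t => Finset.range (D + 1)) ×ˢ
    (Fintype.piFinset fun _ : Fin t => Finset.range (n * D + 1))).image
    fun yz => point n t yz.1 yz.2

theorem points_eq (n t D : ℕ) : points n t D = H530R2.hitSet n t D := rfl

theorem symbolic_map {N n : ℕ} (A : Fin n → Matrix (Fin N) (Fin N) ℂ) (c : Fin n → ℂ) :
    (symbolic A).map (eval c) = value A c := by
  ext i j
  have h1 : symbolic A i j = ∑ k, X k * C (A k i j) := TH189.Kr.sym_apply A i j
  rw [Matrix.map_apply, h1, value, Matrix.sum_apply, map_sum]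
  refine Finset.sum_congr rfl fun k _ => ?_
  rw [map_mul, eval_C, eval_X, Matrix.smul_apply, smul_eq_mul]

/-- **Symbolic determinants which divide determinants over Lie algebras with bounded simple
factors.**  Fix `N, n, m, w`.  The explicit set `points n (seeds m w) N` has at most
`((N + 1) (n N + 1)) ^ seeds m w` elements.  Let `𝔤` be any Lie algebra of complex `M × M` matrices
such that the simple ideals of `𝔤 / rad 𝔤` have dimension at most `m`, and let `Y` be an `M × M`
matrix of polynomials of degree at most `w` in `n` variables all of whose values lie in `𝔤`.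
Let `A_k` be `n` complex `N × N` matrices such that `det Y = h (det (∑ x_k A_k)) ^ k` with `k ≥ 1`
and a nonzero polynomial `h`.  Then `det (∑ x_k A_k)` is a nonzero polynomial if and only if
`det (∑ p_k A_k) ≠ 0` for one of the explicit points `p`. -/
theorem result (N n m w : ℕ) :
    (points n (seeds m w) N).card ≤ ((N + 1) * (n * N + 1)) ^ (seeds m w) ∧
    (∀ p ∈ points n (seeds m w) N, ∀ i,
      |p i| ≤ (seeds m w * N * (n * N + n) ^ (n - 1) : ℕ)) ∧
    ∀ (M : ℕ) (𝔤 : LieSubalgebra ℂ (Matrix (Fin M) (Fin M) ℂ)), SimpleIdealsLE 𝔤 m →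
      ∀ Y : Matrix (Fin M) (Fin M) (MvPolynomial (Fin n) ℂ),
        (∀ i j, (Y i j).totalDegree ≤ w) → (∀ c : Fin n → ℂ, Y.map (eval c) ∈ 𝔤) →
      ∀ (A : Fin n → Matrix (Fin N) (Fin N) ℂ) (k : ℕ) (h : MvPolynomial (Fin n) ℂ),
        1 ≤ k → h ≠ 0 → Y.det = h * (symbolic A).det ^ k →
        ((symbolic A).det ≠ 0 ↔
          ∃ p ∈ points n (seeds m w) N, (value A fun i => (p i : ℂ)).det ≠ 0) := by
  refine ⟨?_, ?_, ?_⟩
  · rw [points_eq]
    exact H530R2.hitSet_card _ _ _
  · intro p hp i
    rw [points_eq] at hp
    exact H530R2.hitSet_bound _ _ _ p hp i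
  intro M 𝔤 hm Y hw hY A k h hk hh hdetY
  have hdet : ∀ c : Fin n → ℂ, eval c (symbolic A).det = (value A c).det := by
    intro c
    rw [← symbolic_map]
    exact RingHom.map_det _ _
  constructor
  · intro hne
    have h2 : (symbolic A).det ∉
        H530R2.genI (fun i : Fin n => ((i.val : ℕ) : ℂ)) (seeds m w) := by
      refine TH189.Kr.lie_notMem 𝔤 m w hm (fun i : Fin n => ((i.val : ℕ) : ℂ))
        (H530R2.nodes_injective n) Y hw hY ?_ _ ?_
      · rw [hdetY]
        exact mul_ne_zero hh (pow_ne_zero _ hne)
      · rw [hdetY]
        exact Dvd.dvd.mul_left (dvd_pow_self _ (by omega)) _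
    have hdeg : (symbolic A).det.totalDegree ≤ N := by
      have h3 := TH189.Lev.charpoly_deg (symbolic A) (TH189.Kr.sym_deg A) 0
      rw [Fintype.card_fin] at h3
      rw [Matrix.det_eq_sign_charpoly_coeff]
      refine (totalDegree_mul _ _).trans ?_
      have h4 : ((-1 : MvPolynomial (Fin n) ℂ) ^ Fintype.card (Fin N)).totalDegree = 0 := by
        rcases neg_one_pow_eq_or (MvPolynomial (Fin n) ℂ) (Fintype.card (Fin N)) with h | h
        · rw [h]; exact totalDegree_one
        · rw [h, totalDegree_neg]; exact totalDegree_one
      rw [h4, Nat.zero_add]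
      exact h3
    obtain ⟨p, hp, hp0⟩ := H530R2.exists_hit n (seeds m w) N _ hdeg h2
    rw [hdet] at hp0
    exact ⟨p, hp, hp0⟩
  · rintro ⟨p, -, hp⟩ h0
    apply hp
    rw [← hdet, h0, map_zero]

end Pool.Agent.Results.MP_64d474_lc.LieValued
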