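import Mathlib
import Pool.Agent.TH585.TR.Shape
import Pool.Agent.TH585.TR.Hankel

/-!
# Symbolic determinants and ranks for tensors of rank close to the size of the matrices

We consider matrices of polynomials

  `M(x) = ∑_{i < N} ℓ_i(x) u_i v_iᵀ + U X(x) + Y(x) V`

with unknown affine forms `ℓ_i`, unknown constant vectors `u_i`, `v_i`, unknown constant matrices
`U` with `r₁` columns and `V` with `r₂` rows, and matrices `X`, `Y` of arbitrary polynomials of
degree at most `e`.  If `N + r₁ + r₂ ≤ R + c`, then it is decided by the values of `M` at the points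

  `x_k = ∑_t y_t z_t ^ k`,   `t < c + max (e (r₁ + r₂)) 1`,

with small integers `y_t`, `z_t`, whether `M` has rank at least `R`.  For `r₁ = r₂ = 0`, `R = n` this
is a test for the symbolic determinants `det (∑ x_k A_k)` of `n × n` matrices such that the tensor
`(A_k)` has rank at most `n + c` over the complex numbers (the decomposition is not given, and there
is no condition on the number of variables, nor on the linear relations between the forms).  The
test uses `c + 1` pairs of seeds, and it is not possible to do with `c` pairs: the generic Hankel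
matrix of size `c + 1`, a tensor of rank `2 c + 1`, is singular at all points with `c` pairs of
complex seeds.

For `c = 0` the determinants are products of linear forms; for `c > 0` they are sums of
`binom (n + c) n` products of `n` linear forms.

The proof: the determinants belong to the class of the polynomials `∑_S P_S ∏_{i ∉ S} ℓ_i`, `#S ≤ c`,
`deg P_S ≤ e (r₁ + r₂)`; the theorem on one cluster of products of affine forms of the starting
repository (`Pool.Agent.H626R2.Clu.thmG`) applies to them.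
-/

set_option autoImplicit false

namespace Pool.Agent.Results.MP_64d474_lc.NearMinimalTensorRank

open MvPolynomial

/-- `f` is an affine form `β + ∑ a_k x_k`. -/
def IsAffine {m : ℕ} (f : MvPolynomial (Fin m) ℂ) : Prop :=
  ∃ (β : ℂ) (a : Fin m → ℂ), f = C β + ∑ k, C (a k) * X k

/-- a matrix of complex numbers as a matrix of constant polynomials -/
noncomputable def cst (m : ℕ) {a b : ℕ} (P : Matrix (Fin a) (Fin b) ℂ) :
    Matrix (Fin a) (Fin b) (MvPolynomial (Fin m) ℂ) := P.map C

/-- `M = ∑_{i < N} ℓ_i u_i v_iᵀ + U X + Y V` with affine forms `ℓ_i`, constant `u_i`, `v_i`, `U`, `V`,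
and matrices `X`, `Y` of polynomials of degree at most `e`; `U` has `r₁` columns, `V` has `r₂` rows. -/
def Shape {m p q : ℕ} (N r₁ r₂ e : ℕ) (M : Matrix (Fin p) (Fin q) (MvPolynomial (Fin m) ℂ)) :
    Prop :=
  ∃ (l : Fin N → MvPolynomial (Fin m) ℂ) (u : Fin N → Fin p → ℂ) (v : Fin N → Fin q → ℂ)
    (U : Matrix (Fin p) (Fin r₁) ℂ) (X : Matrix (Fin r₁) (Fin q) (MvPolynomial (Fin m) ℂ))
    (Y : Matrix (Fin p) (Fin r₂) (MvPolynomial (Fin m) ℂ)) (V : Matrix (Fin r₂) (Fin q) ℂ),
    (∀ i, IsAffine (l i)) ∧ (∀ a j, (X a j).totalDegree ≤ e) ∧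
    (∀ i b, (Y i b).totalDegree ≤ e) ∧
    M = (∑ i, l i • cst m (Matrix.vecMulVec (u i) (v i))) + cst m U * X + Y * cst m V

/-- The tensor `(A_0, …, A_{m-1})` has rank at most `N`: its slices are combinations of the same `N`
matrices `u_i v_iᵀ`. -/
def TensorRankLE {m n : ℕ} (N : ℕ) (A : Fin m → Matrix (Fin n) (Fin n) ℂ) : Prop :=
  ∃ (a : Fin N → Fin m → ℂ) (u v : Fin N → Fin n → ℂ),
    ∀ k, A k = ∑ i, a i k • Matrix.vecMulVec (u i) (v i)

/-- The point with seeds `y, z`: its coordinates are `∑_t y_t z_t ^ k`, `k = 0, …, m - 1`. -/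
def point (m T : ℕ) (y z : Fin T → ℕ) : Fin m → ℤ :=
  fun k => ∑ t, (y t : ℤ) * (z t : ℤ) ^ (k : ℕ)

/-- The explicit set of all points with seeds `y ∈ {0,…,D}^T`, `z ∈ {0,…,mD}^T`. -/
def points (m T D : ℕ) : Finset (Fin m → ℤ) :=
  ((Fintype.piFinset fun _ : Fin T => Finset.range (D + 1)) ×ˢ
    (Fintype.piFinset fun _ : Fin T => Finset.range (m * D + 1))).image
    fun yz => point m T yz.1 yz.2

/-- (1) The explicit set `points m T D ⊆ ℤ^m` has at most `((D+1)(mD+1))^T` elements, with
coordinates of polynomial bit length.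
(2) If `M(x) = ∑_{i < N} ℓ_i u_i v_iᵀ + U X + Y V` as above, `N + r₁ + r₂ ≤ R + c`, and `M(x)` has rank
at least `R` for some complex `x`, then it has rank at least `R` for some `x` in the explicit set
with `T = c + max (e (r₁ + r₂)) 1`, `D = e R`.
(3) In particular, for `n × n` matrices `A_k` with a tensor of rank at most `n + c`: if
`det (∑ x_k A_k)` is not identically zero then it is nonzero at one of the points with `c + 1` pairs
of seeds `y_t ≤ n`, `z_t ≤ m n`.
(4) `c` pairs of seeds are not sufficient, for any `c`, even with complex seeds. -/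
theorem result :
    (∀ m T D : ℕ, (points m T D).card ≤ ((D + 1) * (m * D + 1)) ^ T ∧
      ∀ x ∈ points m T D, ∀ k, |x k| ≤ ((T * D * (m * D + 1) ^ (m - 1) : ℕ) : ℤ)) ∧
    (∀ (m p q N r₁ r₂ e R c : ℕ) (M : Matrix (Fin p) (Fin q) (MvPolynomial (Fin m) ℂ)),
      Shape N r₁ r₂ e M → 1 ≤ e → N + r₁ + r₂ ≤ R + c →
      (∃ x : Fin m → ℂ, R ≤ (M.map (eval x)).rank) →
      ∃ x ∈ points m (c + max (e * (r₁ + r₂)) 1) (e * R),
        R ≤ (M.map (eval fun k => (x k : ℂ))).rank) ∧
    (∀ (m n c : ℕ) (A : Fin m → Matrix (Fin n) (Fin n) ℂ), TensorRankLE (n + c) A →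
      (∃ x : Fin m → ℂ, (∑ k, x k • A k).det ≠ 0) →
      ∃ x ∈ points m (c + 1) n, (∑ k, (x k : ℂ) • A k).det ≠ 0) ∧
    (∀ c : ℕ, ∃ (m n : ℕ) (A : Fin m → Matrix (Fin n) (Fin n) ℂ), TensorRankLE (n + c) A ∧
      (∃ x : Fin m → ℂ, (∑ k, x k • A k).det ≠ 0) ∧
      ∀ y z : Fin c → ℂ, (∑ k : Fin m, (∑ t, y t * z t ^ (k : ℕ)) • A k).det = 0) := by
  have main : ∀ (m p q N r₁ r₂ e R c : ℕ) (M : Matrix (Fin p) (Fin q) (MvPolynomial (Fin m) ℂ)),
      Shape N r₁ r₂ e M → 1 ≤ e → N + r₁ + r₂ ≤ R + c →
      (∃ x : Fin m → ℂ, R ≤ (M.map (eval x)).rank) →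
      ∃ x ∈ points m (c + max (e * (r₁ + r₂)) 1) (e * R),
        R ≤ (M.map (eval fun k => (x k : ℂ))).rank :=
    fun m p q N r₁ r₂ e R c M hM he hN hx => Pool.Agent.TH585.TR.rank_hit M hM he hN hx
  refine ⟨fun m T D => ⟨Pool.Agent.TH585.TR.momPoints_card m T D,
    fun x hx k => Pool.Agent.TH585.TR.momPoints_bound m T D x hx k⟩, main, ?_, ?_⟩
  · intro m n c A hA hx
    obtain ⟨a, u, v, hA⟩ := hA
    set M : Matrix (Fin n) (Fin n) (MvPolynomial (Fin m) ℂ) :=
      Matrix.of fun i j => ∑ k, C (A k i j) * X k with hM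
    have hev : ∀ x : Fin m → ℂ, M.map (eval x) = ∑ k, x k • A k := by
      intro x
      refine Matrix.ext fun i j => ?_
      rw [Matrix.map_apply, hM, Matrix.of_apply, map_sum, Matrix.sum_apply]
      refine Finset.sum_congr rfl fun k _ => ?_
      rw [map_mul, eval_C, eval_X, Matrix.smul_apply, smul_eq_mul, mul_comm]
    have hS : Shape (n + c) 0 0 1 M := by
      refine ⟨fun i => ∑ k, C (a i k) * X k, u, v, 0, 0, 0, 0, ?_, fun a _ => a.elim0,
        fun _ b => b.elim0, ?_⟩
      · intro i
        exact ⟨0, a i, by rw [C_0, zero_add]⟩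
      · refine Matrix.ext fun i j => ?_
        rw [Matrix.mul_zero, Matrix.zero_mul, add_zero, add_zero, hM, Matrix.of_apply,
          Matrix.sum_apply]
        have h2 : ∀ s, ((∑ k, C (a s k) * X k : MvPolynomial (Fin m) ℂ) •
            cst m (Matrix.vecMulVec (u s) (v s))) i j =
            ∑ k, C (a s k * (u s i * v s j)) * X k := by
          intro s
          rw [Matrix.smul_apply, smul_eq_mul, Finset.sum_mul]
          refine Finset.sum_congr rfl fun k _ => ?_
          show C (a s k) * X k * C (Matrix.vecMulVec (u s) (v s) i j) = _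
          rw [Matrix.vecMulVec_apply, C_mul (a := a s k)]
          ring
        rw [Finset.sum_congr rfl fun s _ => h2 s, Finset.sum_comm]
        refine Finset.sum_congr rfl fun k _ => ?_
        rw [← Finset.sum_mul, ← map_sum, hA k, Matrix.sum_apply]
        congr 2
    have hrank : ∀ B : Matrix (Fin n) (Fin n) ℂ, n ≤ B.rank ↔ B.det ≠ 0 := by
      intro B
      constructor
      · intro h
        have h1 := Pool.Agent.TH585.TR.exists_compression B h
        obtain ⟨P, Q, hPQ⟩ := h1
        intro h0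
        apply hPQ
        rw [Matrix.det_mul, Matrix.det_mul, h0, mul_zero, zero_mul]
      · intro h
        have h2 := Matrix.rank_of_isUnit B
          ((Matrix.isUnit_iff_isUnit_det _).2 (isUnit_iff_ne_zero.2 h))
        rw [Fintype.card_fin] at h2
        exact h2.ge
    obtain ⟨x, hx⟩ := hx
    obtain ⟨y, hy, hy'⟩ := main m n n (n + c) 0 0 1 n c M hS le_rfl (by omega)
      ⟨x, by rw [hev, hrank]; exact hx⟩
    refine ⟨y, ?_, ?_⟩
    · simpa using hy
    · rw [hev, hrank] at hy'
      exact hy'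
  · intro c
    refine ⟨2 * c + 1, c + 1, Pool.Agent.TH585.TR.hankel c, ?_,
      Pool.Agent.TH585.TR.hankel_nonsingular c, Pool.Agent.TH585.TR.hankel_singular c⟩
    obtain ⟨a, u, h⟩ := Pool.Agent.TH585.TR.hankel_rank c
    have e1 : c + 1 + c = 2 * c + 1 := by ring
    rw [e1]
    exact ⟨a, u, u, h⟩

end Pool.Agent.Results.MP_64d474_lc.NearMinimalTensorRank
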